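import Pool.Agent.Helper83_CNED.Stmt

/-!
POIN: a Poincaré inequality on boxes.
-/

open MeasureTheory Set Topology Filter

open scoped ENNReal

noncomputable section

namespace Pool.Agent.Helper83_CNED.H12

/-- exchange of some coordinates of two points -/
def sw (J : Fin 3 → Bool) (q : Eu 3 × Eu 3) : Eu 3 × Eu 3 :=
  (WithLp.toLp 2 fun j => if J j then q.2 j else q.1 j,
    WithLp.toLp 2 fun j => if J j then q.1 j else q.2 j)

theorem sw_fst (J : Fin 3 → Bool) (q : Eu 3 × Eu 3) (j : Fin 3) :
    (sw J q).1 j = if J j then q.2 j else q.1 j := rfl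

theorem sw_snd (J : Fin 3 → Bool) (q : Eu 3 × Eu 3) (j : Fin 3) :
    (sw J q).2 j = if J j then q.1 j else q.2 j := rfl

theorem mp_sw (J : Fin 3 → Bool) :
    MeasurePreserving (sw J) ((volume : Measure (Eu 3)).prod volume)
      ((volume : Measure (Eu 3)).prod volume) := by
  have h1 : MeasurePreserving (Prod.map (WithLp.ofLp : Eu 3 → (Fin 3 → ℝ))
      (WithLp.ofLp : Eu 3 → (Fin 3 → ℝ))) ((volume : Measure (Eu 3)).prod volume)
      ((volume : Measure (Fin 3 → ℝ)).prod volume) :=
    (PiLp.volume_preserving_ofLp (Fin 3)).prod (PiLp.volume_preserving_ofLp (Fin 3))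
  have h2 : MeasurePreserving (Prod.map (WithLp.toLp 2 : (Fin 3 → ℝ) → Eu 3)
      (WithLp.toLp 2 : (Fin 3 → ℝ) → Eu 3)) ((volume : Measure (Fin 3 → ℝ)).prod volume)
      ((volume : Measure (Eu 3)).prod volume) :=
    (PiLp.volume_preserving_toLp (Fin 3)).prod (PiLp.volume_preserving_toLp (Fin 3))
  have h3 : MeasurePreserving (MeasurableEquiv.arrowProdEquivProdArrow ℝ ℝ (Fin 3))
      (volume : Measure (Fin 3 → ℝ × ℝ)) ((volume : Measure (Fin 3 → ℝ)).prod volume) :=
    volume_measurePreserving_arrowProdEquivProdArrow ℝ ℝ (Fin 3)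
  have h4 : MeasurePreserving (fun (a : Fin 3 → ℝ × ℝ) (j : Fin 3) =>
      (if J j then (Prod.swap : ℝ × ℝ → ℝ × ℝ) else id) (a j))
      (volume : Measure (Fin 3 → ℝ × ℝ)) volume := by
    apply volume_preserving_pi
    intro j
    by_cases hj : J j = true
    · simp only [hj, if_true]
      exact Measure.measurePreserving_swap
    · simp only [hj]
      exact MeasurePreserving.id _
  have h5 := h2.comp (h3.comp (h4.comp (h3.symm.comp h1)))
  have h6 : sw J = (Prod.map (WithLp.toLp 2) (WithLp.toLp 2) ∘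
      ⇑(MeasurableEquiv.arrowProdEquivProdArrow ℝ ℝ (Fin 3)) ∘
        (fun (a : Fin 3 → ℝ × ℝ) (j : Fin 3) =>
          (if J j = true then (Prod.swap : ℝ × ℝ → ℝ × ℝ) else id) (a j)) ∘
          ⇑(MeasurableEquiv.arrowProdEquivProdArrow ℝ ℝ (Fin 3)).symm ∘
            Prod.map WithLp.ofLp WithLp.ofLp) := by
    funext q
    apply Prod.ext
    · ext j
      rw [sw_fst]
      by_cases hj : J j = true
      · simp only [hj, if_true]
        simp [MeasurableEquiv.arrowProdEquivProdArrow, Equiv.arrowProdEquivProdArrow, hj]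
      · simp only [hj]
        simp [MeasurableEquiv.arrowProdEquivProdArrow, Equiv.arrowProdEquivProdArrow, hj]
    · ext j
      rw [sw_snd]
      by_cases hj : J j = true
      · simp only [hj, if_true]
        simp [MeasurableEquiv.arrowProdEquivProdArrow, Equiv.arrowProdEquivProdArrow, hj]
      · simp only [hj]
        simp [MeasurableEquiv.arrowProdEquivProdArrow, Equiv.arrowProdEquivProdArrow, hj]
  rw [h6]
  exact h5

/-- Fubini in a box of `ℝ ^ 3` -/
theorem fubini_pi (G : (Fin 3 → ℝ) → ℝ≥0∞) (hG : Measurable G) (a b : Fin 3 → ℝ) (i : Fin 3) :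
    ∫⁻ z in {z : Fin 3 → ℝ | ∀ j, a j < z j ∧ z j < b j},
        (∫⁻ r in Ioo (a i) (b i), G (Function.update z i r)) =
      ENNReal.ofReal (b i - a i) * ∫⁻ z in {z : Fin 3 → ℝ | ∀ j, a j < z j ∧ z j < b j}, G z := by
  set S : Set (Fin 3 → ℝ) := {z : Fin 3 → ℝ | ∀ j, a j < z j ∧ z j < b j} with hS
  have hSm : MeasurableSet S := by
    have : S = Set.pi univ fun j => Ioo (a j) (b j) := by
      ext z; simp [hS]
    rw [this]
    exact MeasurableSet.univ_pi fun j => measurableSet_Ioo
  set Φ : (Fin 3 → ℝ) → ℝ≥0∞ := fun z => ∫⁻ r in Ioo (a i) (b i), G (Function.update z i r) with hΦ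
  have hup : Measurable fun q : (Fin 3 → ℝ) × ℝ => Function.update q.1 i q.2 := by
    rw [measurable_pi_iff]
    intro j
    by_cases hj : j = i
    · subst hj; simp only [Function.update_self]; exact measurable_snd
    · simp only [Function.update_of_ne hj]
      exact (measurable_pi_apply j).comp measurable_fst
  have hΦm : Measurable Φ := (hG.comp hup).lintegral_prod_right'
  have key : ∀ (F : (Fin 3 → ℝ) → ℝ≥0∞), Measurable F → ∫⁻ z in S, F z =
      (∫⋯∫⁻_(Finset.univ.erase i),
        (fun x => ∫⁻ r, S.indicator F (Function.update x i r)) ∂fun _ => volume)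
        (fun _ => 0) := by
    intro F hF
    rw [← lintegral_indicator hSm, volume_pi, lintegral_eq_lmarginal_univ (fun _ => 0),
      lmarginal_erase' _ (hF.indicator hSm) (Finset.mem_univ i)]
  rw [key Φ hΦm, key G hG]
  have hmem : ∀ (x : Fin 3 → ℝ) (r : ℝ), Function.update x i r ∈ S ↔
      (∀ j, j ≠ i → a j < x j ∧ x j < b j) ∧ r ∈ Ioo (a i) (b i) := by
    intro x r
    constructor
    · intro h
      refine ⟨fun j hj => ?_, ?_⟩
      · have := h j
        rwa [Function.update_of_ne hj] at this
      · have := h i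
        rwa [Function.update_self] at this
    · rintro ⟨h1, h2⟩ j
      by_cases hj : j = i
      · subst hj; rw [Function.update_self]; exact h2
      · rw [Function.update_of_ne hj]; exact h1 j hj
  have hpt : (fun x : Fin 3 → ℝ => ∫⁻ r, S.indicator Φ (Function.update x i r)) =
      fun x => ENNReal.ofReal (b i - a i) * ∫⁻ r, S.indicator G (Function.update x i r) := by
    funext x
    by_cases hx : ∀ j, j ≠ i → a j < x j ∧ x j < b j
    · have e1 : (fun r => S.indicator Φ (Function.update x i r)) =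
          (Ioo (a i) (b i)).indicator fun _ => Φ x := by
        funext r
        by_cases hr : r ∈ Ioo (a i) (b i)
        · rw [indicator_of_mem hr, indicator_of_mem ((hmem x r).2 ⟨hx, hr⟩), hΦ]
          simp only [Function.update_idem]
        · rw [indicator_of_notMem hr, indicator_of_notMem fun h => hr ((hmem x r).1 h).2]
      have e2 : (fun r => S.indicator G (Function.update x i r)) =
          (Ioo (a i) (b i)).indicator fun r => G (Function.update x i r) := by
        funext r
        by_cases hr : r ∈ Ioo (a i) (b i)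
        · rw [indicator_of_mem hr, indicator_of_mem ((hmem x r).2 ⟨hx, hr⟩)]
        · rw [indicator_of_notMem hr, indicator_of_notMem fun h => hr ((hmem x r).1 h).2]
      rw [e1, e2, lintegral_indicator measurableSet_Ioo, lintegral_indicator measurableSet_Ioo,
        setLIntegral_const, Real.volume_Ioo, mul_comm]
    · have e1 : (fun r => S.indicator Φ (Function.update x i r)) = fun _ => 0 := by
        funext r
        exact indicator_of_notMem (fun h => hx ((hmem x r).1 h).1) _
      have e2 : (fun r => S.indicator G (Function.update x i r)) = fun _ => 0 := by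
        funext r
        exact indicator_of_notMem (fun h => hx ((hmem x r).1 h).1) _
      rw [e1, e2]; simp
  rw [hpt]
  simp only [lmarginal]
  rw [lintegral_const_mul]
  have h3 : Measurable fun x : Fin 3 → ℝ => ∫⁻ r, S.indicator G (Function.update x i r) :=
    ((hG.indicator hSm).comp hup).lintegral_prod_right'
  exact h3.comp measurable_updateFinset

theorem line_toLp (z : Fin 3 → ℝ) (i : Fin 3) (r : ℝ) :
    line (WithLp.toLp 2 z : Eu 3) i r = WithLp.toLp 2 (Function.update z i r) := by
  ext j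
  rw [line_apply]
  by_cases hj : j = i
  · subst hj; simp
  · simp [hj]

/-- Fubini in a box -/
theorem fubini_box (G : Eu 3 → ℝ≥0∞) (hG : Measurable G) (a b : Fin 3 → ℝ) (i : Fin 3) :
    ∫⁻ z in ob a b, (∫⁻ r in Ioo (a i) (b i), G (line z i r)) =
      ENNReal.ofReal (b i - a i) * ∫⁻ z in ob a b, G z := by
  have hmp := PiLp.volume_preserving_toLp (Fin 3)
  have hline : Measurable fun q : Eu 3 × ℝ => line q.1 i q.2 := (continuous_line i).measurable
  have hΦ : Measurable fun z : Eu 3 => ∫⁻ r in Ioo (a i) (b i), G (line z i r) :=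
    (hG.comp hline).lintegral_prod_right'
  have hpre : (WithLp.toLp 2 : (Fin 3 → ℝ) → Eu 3) ⁻¹' (ob a b) =
      {z : Fin 3 → ℝ | ∀ j, a j < z j ∧ z j < b j} := rfl
  rw [← hmp.setLIntegral_comp_preimage (measurableSet_ob a b) hΦ,
    ← hmp.setLIntegral_comp_preimage (measurableSet_ob a b) hG, hpre]
  simp only [line_toLp]
  exact fubini_pi (fun z => G (WithLp.toLp 2 z)) (hG.comp hmp.measurable) a b i

theorem sw_preimage (J : Fin 3 → Bool) (a b : Fin 3 → ℝ) :
    sw J ⁻¹' (ob a b ×ˢ ob a b) = ob a b ×ˢ ob a b := by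
  ext q
  simp only [mem_preimage, mem_prod]
  constructor
  · rintro ⟨h1, h2⟩
    constructor
    · intro j
      have e1 := h1 j
      have e2 := h2 j
      rw [sw_fst] at e1
      rw [sw_snd] at e2
      by_cases hj : J j = true
      · rw [if_pos hj] at e2; exact e2
      · rw [if_neg hj] at e1; exact e1
    · intro j
      have e1 := h1 j
      have e2 := h2 j
      rw [sw_fst] at e1
      rw [sw_snd] at e2
      by_cases hj : J j = true
      · rw [if_pos hj] at e1; exact e1
      · rw [if_neg hj] at e2; exact e2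
  · rintro ⟨h1, h2⟩
    constructor
    · intro j
      rw [sw_fst]
      split_ifs
      · exact h2 j
      · exact h1 j
    · intro j
      rw [sw_snd]
      split_ifs
      · exact h1 j
      · exact h2 j

/-- the distance of the images of two points of a line parallel to the axis `i` -/
def FF (h : Eu 3 → Eu 3) (i : Fin 3) (q : Eu 3 × Eu 3) : ℝ≥0∞ :=
  edist (h q.1) (h (line q.1 i (q.2 i)))

theorem continuous_FF (h : Eu 3 → Eu 3) (hh : Continuous h) (i : Fin 3) :
    Continuous (FF h i) := by
  unfold FF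
  have h1 : Continuous fun q : Eu 3 × Eu 3 => line q.1 i (q.2 i) := by
    have : Continuous fun q : Eu 3 × Eu 3 => ((q.1, q.2 i) : Eu 3 × ℝ) := by fun_prop
    exact (continuous_line i).comp this
  exact (hh.comp continuous_fst).edist (hh.comp h1)

theorem FF_le (h : Eu 3 → Eu 3) (G : Eu 3 → ℝ≥0∞) (a b : Fin 3 → ℝ) (i : Fin 3)
    (hUG : UG h G i a b) :
    ∀ᵐ z : Eu 3, z ∈ ob a b → ∀ w ∈ ob a b, FF h i (z, w) ≤
      ∫⁻ r in Ioo (a i) (b i), G (line z i r) := by
  filter_upwards [hUG] with z hz hzo w hw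
  have h1 := hz fun j _ => hzo j
  have hmono : ∀ s t : ℝ, a i < s → t < b i → ∫⁻ r in Ioo s t, G (line z i r) ≤
      ∫⁻ r in Ioo (a i) (b i), G (line z i r) := by
    intro s t hs ht
    apply lintegral_mono_set
    exact Ioo_subset_Ioo hs.le ht.le
  have e : FF h i (z, w) = edist (h (line z i (z i))) (h (line z i (w i))) := by
    unfold FF
    simp only [line_self]
  rw [e]
  rcases le_total (z i) (w i) with hc | hc
  · exact (h1 _ _ (hzo i).1 hc (hw i).2).trans (hmono _ _ (hzo i).1 (hw i).2)
  · rw [edist_comm]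
    exact (h1 _ _ (hw i).1 hc (hzo i).2).trans (hmono _ _ (hw i).1 (hzo i).2)

/-- the set of coordinates before `i` -/
def JJ (i j : Fin 3) : Bool := decide (j < i)

theorem tri (h : Eu 3 → Eu 3) (q : Eu 3 × Eu 3) :
    edist (h q.1) (h q.2) ≤ ∑ i : Fin 3, FF h i (sw (JJ i) q) := by
  have e0 : (sw (JJ 0) q).1 = q.1 := by
    ext j
    rw [sw_fst]
    simp [JJ]
  have e1 : line (sw (JJ 0) q).1 0 ((sw (JJ 0) q).2 0) = (sw (JJ 1) q).1 := by
    ext j
    rw [line_apply, sw_fst, sw_fst, sw_snd]
    fin_cases j <;> simp [JJ]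
  have e2 : line (sw (JJ 1) q).1 1 ((sw (JJ 1) q).2 1) = (sw (JJ 2) q).1 := by
    ext j
    rw [line_apply, sw_fst, sw_fst, sw_snd]
    fin_cases j <;> simp [JJ]
  have e3 : line (sw (JJ 2) q).1 2 ((sw (JJ 2) q).2 2) = q.2 := by
    ext j
    rw [line_apply, sw_fst, sw_snd]
    fin_cases j <;> simp [JJ]
  rw [Fin.sum_univ_three]
  unfold FF
  rw [e1, e2, e3, e0]
  exact (edist_triangle4 _ _ _ _)

theorem poin : PoinStmt := by
  intro h G hh hG a b hab hUG
  set B := ob a b with hB
  have hBm : MeasurableSet B := measurableSet_ob a b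
  have hBB : MeasurableSet (B ×ˢ B) := hBm.prod hBm
  have hprod : ∀ F : Eu 3 × Eu 3 → ℝ≥0∞, Measurable F →
      ∫⁻ q in B ×ˢ B, F q ∂((volume : Measure (Eu 3)).prod volume) =
        ∫⁻ x in B, ∫⁻ y in B, F (x, y) := by
    intro F hF
    rw [← Measure.prod_restrict, lintegral_prod _ hF.aemeasurable]
  have hed : Measurable fun q : Eu 3 × Eu 3 => edist (h q.1) (h q.2) :=
    ((hh.comp continuous_fst).edist (hh.comp continuous_snd)).measurable
  rw [← hprod _ hed]
  have hstep : ∀ i : Fin 3, ∫⁻ q in B ×ˢ B, FF h i (sw (JJ i) q)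
      ∂((volume : Measure (Eu 3)).prod volume) ≤
      ENNReal.ofReal (b i - a i) * volume B * ∫⁻ x in B, G x := by
    intro i
    have h1 := (mp_sw (JJ i)).setLIntegral_comp_preimage hBB (continuous_FF h hh i).measurable
    rw [sw_preimage] at h1
    rw [h1, hprod _ (continuous_FF h hh i).measurable]
    have h2 : ∫⁻ z in B, ∫⁻ w in B, FF h i (z, w) ≤
        ∫⁻ z in B, ∫⁻ _w in B, (∫⁻ r in Ioo (a i) (b i), G (line z i r)) := by
      apply lintegral_mono_ae
      rw [ae_restrict_iff' hBm]
      filter_upwards [FF_le h G a b i (hUG i)] with z hz hzB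
      apply lintegral_mono_ae
      rw [ae_restrict_iff' hBm]
      exact ae_of_all _ fun w hw => hz hzB w hw
    refine h2.trans (le_of_eq ?_)
    have h3 : ∀ z : Eu 3, ∫⁻ _w in B, (∫⁻ r in Ioo (a i) (b i), G (line z i r)) =
        (∫⁻ r in Ioo (a i) (b i), G (line z i r)) * volume B := by
      intro z
      rw [setLIntegral_const]
    simp only [h3]
    have hΦ : Measurable fun z : Eu 3 => ∫⁻ r in Ioo (a i) (b i), G (line z i r) :=
      (hG.comp (continuous_line i).measurable).lintegral_prod_right'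
    rw [lintegral_mul_const _ hΦ, fubini_box G hG a b i]
    ring
  calc ∫⁻ q in B ×ˢ B, edist (h q.1) (h q.2) ∂((volume : Measure (Eu 3)).prod volume)
      ≤ ∫⁻ q in B ×ˢ B, ∑ i : Fin 3, FF h i (sw (JJ i) q)
          ∂((volume : Measure (Eu 3)).prod volume) := lintegral_mono fun q => tri h q
    _ = ∑ i : Fin 3, ∫⁻ q in B ×ˢ B, FF h i (sw (JJ i) q)
          ∂((volume : Measure (Eu 3)).prod volume) := by
        apply lintegral_finsetSum
        intro i _
        exact (continuous_FF h hh i).measurable.comp (mp_sw (JJ i)).measurable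
    _ ≤ ∑ i : Fin 3, ENNReal.ofReal (b i - a i) * volume B * ∫⁻ x in B, G x :=
        Finset.sum_le_sum fun i _ => hstep i
    _ = (∑ j, ENNReal.ofReal (b j - a j)) * volume B * ∫⁻ x in B, G x := by
        rw [Finset.sum_mul, Finset.sum_mul]

end Pool.Agent.Helper83_CNED.H12
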