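import Pool.Agent.Helper83_CNED.Stmt

/-!
WALK: the walk along a line.
-/

open MeasureTheory Set Topology Filter

open scoped ENNReal

noncomputable section

namespace Pool.Agent.Helper83_CNED.H12

/-- extension of an upper gradient inequality to the closed interval -/
theorem ug_closed {F : ℝ → Eu 3} (hF : Continuous F) {γ : ℝ → ℝ≥0∞} {α β : ℝ}
    (h : ∀ s t : ℝ, α < s → s ≤ t → t < β → edist (F s) (F t) ≤ ∫⁻ r in Ioo s t, γ r)
    {s t : ℝ} (hs : α ≤ s) (hst : s ≤ t) (ht : t ≤ β) :
    edist (F s) (F t) ≤ ∫⁻ r in Ioo s t, γ r := by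
  rcases hst.eq_or_lt with he | hlt
  · rw [he, edist_self]; exact zero_le
  have hc : Tendsto (fun δ : ℝ => edist (F (s + δ)) (F (t - δ))) (𝓝[>] 0)
      (𝓝 (edist (F (s + 0)) (F (t - 0)))) := by
    have : Continuous fun δ : ℝ => edist (F (s + δ)) (F (t - δ)) := by fun_prop
    exact (this.tendsto 0).mono_left nhdsWithin_le_nhds
  rw [add_zero, sub_zero] at hc
  apply le_of_tendsto hc
  have h1 : ∀ᶠ δ : ℝ in 𝓝[>] 0, δ < (t - s) / 2 := by
    have : ∀ᶠ δ : ℝ in 𝓝 0, δ < (t - s) / 2 := gt_mem_nhds (by linarith)
    exact this.filter_mono nhdsWithin_le_nhds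
  filter_upwards [h1, self_mem_nhdsWithin] with δ hδ hδ0
  have hδ0' : 0 < δ := hδ0
  refine (h (s + δ) (t - δ) (by linarith) (by linarith) (by linarith)).trans ?_
  apply lintegral_mono_set
  exact Ioo_subset_Ioo (by linarith) (by linarith)

theorem lint_add {γ : ℝ → ℝ≥0∞} {a b c : ℝ} (hab : a ≤ b) (hbc : b ≤ c) :
    (∫⁻ r in Ioo a b, γ r) + ∫⁻ r in Ioo b c, γ r ≤ ∫⁻ r in Ioo a c, γ r := by
  have hd : Disjoint (Ioo a b) (Ioo b c) := by
    rw [Set.disjoint_left]
    intro x hx hx'
    exact absurd hx.2 (not_lt.2 hx'.1.le)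
  rw [← lintegral_union measurableSet_Ioo hd]
  apply lintegral_mono_set
  apply union_subset
  · exact Ioo_subset_Ioo_right hbc
  · exact Ioo_subset_Ioo_left hab

theorem idx_line (m : ℕ) (p : Eu 3) (i : Fin 3) (r : ℝ) :
    idx m (line p i r) = Function.update (idx m p) i ⌊(RR m : ℝ) * r⌋ := by
  funext j
  by_cases hj : j = i
  · subst hj
    rw [Function.update_self]
    unfold idx
    rw [line_same]
  · rw [Function.update_of_ne hj]
    unfold idx
    rw [line_ne p hj]

theorem update_add_sg (z : Fin 3 → ℤ) (i : Fin 3) (k : ℤ) (s : Bool) :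
    Function.update z i k + sg s • ue i = Function.update z i (k + sg s) := by
  funext j
  by_cases hj : j = i
  · subst hj
    simp [ue]
  · simp [ue, hj]

section

variable {f : Eu 3 → Eu 3} {g : Eu 3 → ℝ≥0∞} {i : Fin 3} {p : Eu 3} {m : ℕ}

/-- a box of gap cubes along the line -/
theorem box_line (hB : BoxUStmt) (hf : Continuous f) (hline : LineUG f g i p) (n : ℕ)
    (a b : Fin 3 → ℤ)
    (hev : ∀ z : Fin 3 → ℤ, (∀ j, a j ≤ z j ∧ z j < b j) → Even (lab n z))
    (hp : ∀ j, j ≠ i → (a j : ℝ) / RR n < p j ∧ p j < (b j : ℝ) / RR n)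
    {s t : ℝ} (hs : (a i : ℝ) / RR n ≤ s) (hst : s ≤ t) (ht : t ≤ (b i : ℝ) / RR n) :
    edist (f (line p i s)) (f (line p i t)) ≤
      ∫⁻ r in Ioo s t, UU.indicator g (line p i r) := by
  have hsub := hB n a b hev
  have hF : Continuous fun r : ℝ => f (line p i r) := hf.comp (continuous_line_right p i)
  have h1 := ug_closed hF (hline n a b hsub hp) hs hst ht
  refine h1.trans (le_of_eq ?_)
  apply setLIntegral_congr_fun measurableSet_Ioo
  intro r hr
  have hmem : line p i r ∈ UU := by
    apply hsub
    intro j
    by_cases hj : j = i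
    · subst hj
      rw [line_same]
      exact ⟨lt_of_le_of_lt hs hr.1, lt_of_lt_of_le hr.2 ht⟩
    · rw [line_ne p hj]
      exact hp j hj
  simp only [indicator_of_mem hmem]

theorem strict_succ (hgood : ∀ j, j ≠ i → GoodC m (p j)) (j : Fin 3) (hj : j ≠ i) :
    ((idx (m + 1) p j : ℤ) : ℝ) / RR (m + 1) < p j ∧
      p j < ((idx (m + 1) p j + 1 : ℤ) : ℝ) / RR (m + 1) := by
  have hR := RRr_pos (m + 1)
  have hne := (hgood j hj).2
  have h1 : ((idx (m + 1) p j : ℤ) : ℝ) ≤ RR (m + 1) * p j := Int.floor_le _
  have h2 : (RR (m + 1) : ℝ) * p j < (idx (m + 1) p j : ℤ) + 1 := Int.lt_floor_add_one _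
  have h3 : ((idx (m + 1) p j : ℤ) : ℝ) < RR (m + 1) * p j :=
    lt_of_le_of_ne h1 fun h => hne _ h.symm
  constructor
  · rw [div_lt_iff₀ hR]; linarith
  · rw [lt_div_iff₀ hR]; push_cast; linarith

theorem strict (hgood : ∀ j, j ≠ i → GoodC m (p j)) (j : Fin 3) (hj : j ≠ i) :
    ((idx m p j : ℤ) : ℝ) / RR m < p j ∧ p j < ((idx m p j + 1 : ℤ) : ℝ) / RR m := by
  have hR := RRr_pos m
  have hM := MMr_pos m
  have hne : (RR m : ℝ) * p j ≠ (idx m p j : ℤ) := by
    intro h
    apply (hgood j hj).2 (idx m p j * MM m)
    rw [RRr_succ]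
    push_cast
    rw [← h]
    ring
  have h1 : ((idx m p j : ℤ) : ℝ) ≤ RR m * p j := Int.floor_le _
  have h2 : (RR m : ℝ) * p j < (idx m p j : ℤ) + 1 := Int.lt_floor_add_one _
  have h3 : ((idx m p j : ℤ) : ℝ) < RR m * p j := lt_of_le_of_ne h1 fun h => hne h.symm
  constructor
  · rw [div_lt_iff₀ hR]; linarith
  · rw [lt_div_iff₀ hR]; push_cast; linarith

/-- part of an even cube -/
theorem even_cube (hB : BoxUStmt) (hf : Continuous f) (hline : LineUG f g i p)
    (hgood : ∀ j, j ≠ i → GoodC m (p j)) (k : ℤ)
    (hev : Even (lab m (Function.update (idx m p) i k)))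
    {s t : ℝ} (hs : (k : ℝ) / RR m ≤ s) (hst : s ≤ t) (ht : t ≤ ((k : ℝ) + 1) / RR m) :
    edist (f (line p i s)) (f (line p i t)) ≤
      ∫⁻ r in Ioo s t, UU.indicator g (line p i r) := by
  apply box_line hB hf hline m (fun j => if j = i then k else idx m p j)
    (fun j => if j = i then k + 1 else idx m p j + 1)
  · intro z hz
    have : z = Function.update (idx m p) i k := by
      funext j
      have := hz j
      by_cases hj : j = i
      · subst hj
        simp only [if_true] at this
        rw [Function.update_self]; omega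
      · simp only [hj, if_false] at this
        rw [Function.update_of_ne hj]; omega
    rw [this]; exact hev
  · intro j hj
    simp only [hj, if_false]
    exact strict hgood j hj
  · simpa using hs
  · exact hst
  · simpa using ht

open Classical in
/-- crossing of an odd cube -/
theorem odd_cube (hL : LabFStmt) (hB : BoxUStmt) (hf : Continuous f) (hline : LineUG f g i p)
    (hgood : ∀ j, j ≠ i → GoodC m (p j)) (k : ℤ)
    (hodd : Odd (lab m (Function.update (idx m p) i k))) :
    edist (f (line p i ((k : ℝ) / RR m))) (f (line p i (((k : ℝ) + 1) / RR m))) ≤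
      (∫⁻ r in Ioo ((k : ℝ) / RR m) (((k : ℝ) + 1) / RR m), UU.indicator g (line p i r)) +
        (jump f m i true k p + jump f m i false k p) := by
  have hR := RRr_pos m
  have hR' := RRr_pos (m + 1)
  have hM := MMr_pos m
  have hMM := MM_ge m
  have hRR := RRr_succ m
  set zc := Function.update (idx m p) i k with hzc
  set A : ℤ := k * MM m + (if Even (lab m (zc + sg false • ue i)) then 6 else 0) with hA
  set B : ℤ := (k + 1) * MM m - (if Even (lab m (zc + sg true • ue i)) then 6 else 0) with hB'
  have hmidp : ∀ j, j ≠ i → mid (MM m) (⌊(RR (m + 1) : ℝ) * p j⌋ % MM m) :=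
    fun j hj => (hgood j hj).1
  have hAB : A ≤ B := by
    rw [hA, hB']
    have : (k + 1) * (MM m : ℤ) = k * MM m + MM m := by ring
    split_ifs <;> omega
  have hkA : (k : ℝ) / RR m ≤ (A : ℝ) / RR (m + 1) := by
    rw [hRR, div_le_div_iff₀ hR (mul_pos hR hM)]
    have : (k : ℝ) * MM m ≤ A := by
      have : (k * MM m : ℤ) ≤ A := by rw [hA]; split_ifs <;> omega
      exact_mod_cast this
    nlinarith
  have hBk : (B : ℝ) / RR (m + 1) ≤ ((k : ℝ) + 1) / RR m := by
    rw [hRR, div_le_div_iff₀ (mul_pos hR hM) hR]
    have : (B : ℝ) ≤ ((k : ℝ) + 1) * MM m := by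
      have : B ≤ ((k + 1) * MM m : ℤ) := by rw [hB']; split_ifs <;> omega
      exact_mod_cast this
    nlinarith
  have hABr : (A : ℝ) / RR (m + 1) ≤ (B : ℝ) / RR (m + 1) := by
    apply div_le_div_of_nonneg_right _ hR'.le
    exact_mod_cast hAB
  -- the main part
  have hmain : edist (f (line p i ((A : ℝ) / RR (m + 1)))) (f (line p i ((B : ℝ) / RR (m + 1)))) ≤
      ∫⁻ r in Ioo ((A : ℝ) / RR (m + 1)) ((B : ℝ) / RR (m + 1)), UU.indicator g (line p i r) := by
    apply box_line hB hf hline (m + 1) (fun j => if j = i then A else idx (m + 1) p j)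
      (fun j => if j = i then B else idx (m + 1) p j + 1)
    · intro c hc
      have hci : A ≤ c i ∧ c i < B := by simpa using hc i
      have hcj : ∀ j, j ≠ i → c j = idx (m + 1) p j := by
        intro j hj
        have := hc j
        simp only [hj, if_false] at this
        omega
      have hlow : k * MM m ≤ c i := le_trans (by rw [hA]; split_ifs <;> omega) hci.1
      have hupp : c i < (k + 1) * MM m :=
        lt_of_lt_of_le hci.2 (by rw [hB']; split_ifs <;> omega)
      have hdiv : c i / MM m = k := by
        apply le_antisymm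
        · have : c i / MM m < k + 1 := Int.ediv_lt_of_lt_mul (by omega) hupp
          omega
        · exact Int.le_ediv_of_mul_le (by omega) hlow
      have hmod : c i % MM m = c i - k * MM m := by
        have := Int.mul_ediv_add_emod (c i) (MM m)
        rw [hdiv] at this
        linarith
      have hpar : par (MM m) c = zc := by
        have h0 := idx_par m p
        funext j
        by_cases hj : j = i
        · subst hj
          unfold par
          rw [hzc, Function.update_self]
          exact hdiv
        · unfold par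
          rw [hcj j hj, hzc, Function.update_of_ne hj]
          exact congrFun h0 j
      have h2 := (hL m zc i c hodd hpar (fun j hj => by
        rw [hcj j hj]; exact hmidp j hj)).2
      have h3 := h2 (fun he => by
        rw [hmod]
        have := hci.1
        rw [hA, if_pos he] at this
        omega) (fun he => by
        rw [hmod]
        have := hci.2
        rw [hB', if_pos he] at this
        have e : (k + 1) * (MM m : ℤ) = k * MM m + MM m := by ring
        omega)
      rw [h3]
      exact even_two_mul _
    · intro j hj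
      simp only [hj, if_false]
      exact strict_succ hgood j hj
    · simp
    · exact hABr
    · simp
  -- the lower layer
  have hlo : edist (f (line p i ((k : ℝ) / RR m))) (f (line p i ((A : ℝ) / RR (m + 1)))) ≤
      jump f m i false k p := by
    by_cases he : Even (lab m (zc + sg false • ue i))
    · have : jump f m i false k p =
          edist (f (line p i (tf m false k))) (f (line p i (tg m false k))) := by
        unfold jump
        rw [if_pos ⟨hodd, he, hmidp⟩]
      rw [this]
      have e1 : tf m false k = (k : ℝ) / RR m := by simp [tf]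
      have e2 : tg m false k = (A : ℝ) / RR (m + 1) := by
        simp only [tg]
        rw [hA, if_pos he]
        push_cast
        rw [hRR]
        field_simp
      rw [e1, e2]
    · have e2 : (A : ℝ) / RR (m + 1) = (k : ℝ) / RR m := by
        rw [hA, if_neg he]
        push_cast
        rw [hRR]
        field_simp
        simp
      rw [e2, edist_self]
      exact zero_le
  have hup : edist (f (line p i ((B : ℝ) / RR (m + 1)))) (f (line p i (((k : ℝ) + 1) / RR m))) ≤
      jump f m i true k p := by
    by_cases he : Even (lab m (zc + sg true • ue i))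
    · have : jump f m i true k p =
          edist (f (line p i (tf m true k))) (f (line p i (tg m true k))) := by
        unfold jump
        rw [if_pos ⟨hodd, he, hmidp⟩]
      rw [this]
      have e1 : tf m true k = ((k : ℝ) + 1) / RR m := by simp [tf]
      have e2 : tg m true k = (B : ℝ) / RR (m + 1) := by
        simp only [tg]
        rw [hB', if_pos he]
        push_cast
        rw [hRR]
        field_simp
      rw [e1, e2, edist_comm]
    · have e2 : (B : ℝ) / RR (m + 1) = ((k : ℝ) + 1) / RR m := by
        rw [hB', if_neg he]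
        push_cast
        rw [hRR]
        field_simp
        simp
      rw [e2, edist_self]
      exact zero_le
  calc edist (f (line p i ((k : ℝ) / RR m))) (f (line p i (((k : ℝ) + 1) / RR m)))
      ≤ edist (f (line p i ((k : ℝ) / RR m))) (f (line p i ((A : ℝ) / RR (m + 1)))) +
        edist (f (line p i ((A : ℝ) / RR (m + 1)))) (f (line p i ((B : ℝ) / RR (m + 1)))) +
        edist (f (line p i ((B : ℝ) / RR (m + 1)))) (f (line p i (((k : ℝ) + 1) / RR m))) :=
        edist_triangle4 _ _ _ _
    _ ≤ jump f m i false k p + (∫⁻ r in Ioo ((A : ℝ) / RR (m + 1)) ((B : ℝ) / RR (m + 1)),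
          UU.indicator g (line p i r)) + jump f m i true k p :=
        add_le_add (add_le_add hlo hmain) hup
    _ ≤ jump f m i false k p + (∫⁻ r in Ioo ((k : ℝ) / RR m) (((k : ℝ) + 1) / RR m),
          UU.indicator g (line p i r)) + jump f m i true k p := by
        gcongr
    _ = _ := by ring

/-- crossing of a cube -/
theorem cross_cube (hL : LabFStmt) (hB : BoxUStmt) (hf : Continuous f) (hline : LineUG f g i p)
    (hgood : ∀ j, j ≠ i → GoodC m (p j)) (k : ℤ) :
    edist (f (line p i ((k : ℝ) / RR m))) (f (line p i (((k : ℝ) + 1) / RR m))) ≤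
      (∫⁻ r in Ioo ((k : ℝ) / RR m) (((k : ℝ) + 1) / RR m), UU.indicator g (line p i r)) +
        (jump f m i true k p + jump f m i false k p) := by
  rcases Int.even_or_odd (lab m (Function.update (idx m p) i k)) with he | ho
  · have hle : (k : ℝ) / RR m ≤ ((k : ℝ) + 1) / RR m := by
      apply div_le_div_of_nonneg_right _ (RRr_pos m).le
      linarith
    exact (even_cube hB hf hline hgood k he le_rfl hle le_rfl).trans le_self_add
  · exact odd_cube hL hB hf hline hgood k ho

/-- crossing of several cubes -/
theorem cross_many (hL : LabFStmt) (hB : BoxUStmt) (hf : Continuous f) (hline : LineUG f g i p)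
    (hgood : ∀ j, j ≠ i → GoodC m (p j)) (k : ℤ) (n : ℕ) :
    edist (f (line p i ((k : ℝ) / RR m))) (f (line p i (((k : ℝ) + n) / RR m))) ≤
      (∫⁻ r in Ioo ((k : ℝ) / RR m) (((k : ℝ) + n) / RR m), UU.indicator g (line p i r)) +
        ∑ l ∈ Finset.range n, (jump f m i true (k + l) p + jump f m i false (k + l) p) := by
  have hR := RRr_pos m
  induction n with
  | zero => simp
  | succ n ih =>
    have h1 := cross_cube hL hB hf hline hgood (k + n)
    push_cast at h1
    have e : ((k : ℝ) + (n + 1 : ℕ)) = (k : ℝ) + n + 1 := by push_cast; ring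
    rw [e, Finset.sum_range_succ]
    have hle1 : (k : ℝ) / RR m ≤ ((k : ℝ) + n) / RR m := by
      apply div_le_div_of_nonneg_right _ hR.le
      have : (0 : ℝ) ≤ n := Nat.cast_nonneg n
      linarith
    have hle2 : ((k : ℝ) + n) / RR m ≤ ((k : ℝ) + n + 1) / RR m := by
      apply div_le_div_of_nonneg_right _ hR.le
      linarith
    have h2 := lint_add (γ := fun r => UU.indicator g (line p i r)) hle1 hle2
    calc edist (f (line p i ((k : ℝ) / RR m))) (f (line p i (((k : ℝ) + n + 1) / RR m)))
        ≤ edist (f (line p i ((k : ℝ) / RR m))) (f (line p i (((k : ℝ) + n) / RR m))) +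
          edist (f (line p i (((k : ℝ) + n) / RR m))) (f (line p i (((k : ℝ) + n + 1) / RR m))) :=
          edist_triangle _ _ _
      _ ≤ ((∫⁻ r in Ioo ((k : ℝ) / RR m) (((k : ℝ) + n) / RR m), UU.indicator g (line p i r)) +
          ∑ l ∈ Finset.range n, (jump f m i true (k + l) p + jump f m i false (k + l) p)) +
          ((∫⁻ r in Ioo (((k : ℝ) + n) / RR m) (((k : ℝ) + n + 1) / RR m),
            UU.indicator g (line p i r)) +
          (jump f m i true (k + n) p + jump f m i false (k + n) p)) := add_le_add ih h1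
      _ = ((∫⁻ r in Ioo ((k : ℝ) / RR m) (((k : ℝ) + n) / RR m), UU.indicator g (line p i r)) +
          ∫⁻ r in Ioo (((k : ℝ) + n) / RR m) (((k : ℝ) + n + 1) / RR m),
            UU.indicator g (line p i r)) +
          (∑ l ∈ Finset.range n, (jump f m i true (k + l) p + jump f m i false (k + l) p) +
          (jump f m i true (k + n) p + jump f m i false (k + n) p)) := by ring
      _ ≤ _ := add_le_add h2 le_rfl

end

theorem walk (hL : LabFStmt) (hB : BoxUStmt) : WalkStmt := by
  intro f g hf hg i p m hline hgood s t hst hs ht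
  have hR := RRr_pos m
  rw [idx_line] at hs ht
  set ks := ⌊(RR m : ℝ) * s⌋ with hks
  set kt := ⌊(RR m : ℝ) * t⌋ with hkt
  have hs1 : (ks : ℝ) / RR m ≤ s := by
    rw [div_le_iff₀ hR]
    have := Int.floor_le ((RR m : ℝ) * s)
    linarith
  have hs2 : s ≤ ((ks : ℝ) + 1) / RR m := by
    rw [le_div_iff₀ hR]
    have := (Int.lt_floor_add_one ((RR m : ℝ) * s)).le
    linarith
  have ht1 : (kt : ℝ) / RR m ≤ t := by
    rw [div_le_iff₀ hR]
    have := Int.floor_le ((RR m : ℝ) * t)
    linarith
  have ht2 : t ≤ ((kt : ℝ) + 1) / RR m := by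
    rw [le_div_iff₀ hR]
    have := (Int.lt_floor_add_one ((RR m : ℝ) * t)).le
    linarith
  have hkk : ks ≤ kt := Int.floor_le_floor (by
    have := mul_le_mul_of_nonneg_left hst hR.le
    exact this)
  rcases hkk.eq_or_lt with he | hlt
  · rw [← he] at ht2
    exact (even_cube hB hf hline hgood ks hs hs1 hst ht2).trans le_self_add
  · obtain ⟨n, hn⟩ : ∃ n : ℕ, kt = ks + 1 + n := ⟨(kt - ks - 1).toNat, by omega⟩
    have hn' : (kt : ℝ) = ((ks + 1 : ℤ) : ℝ) + n := by rw [hn]; push_cast; ring
    have h1 := even_cube hB hf hline hgood ks hs hs1 hs2 le_rfl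
    have h2 := cross_many hL hB hf hline hgood (ks + 1) n
    rw [← hn'] at h2
    have e1 : ((ks + 1 : ℤ) : ℝ) = (ks : ℝ) + 1 := by push_cast; ring
    rw [e1] at h2
    have h3 := even_cube hB hf hline hgood kt ht le_rfl ht1 ht2
    have hle1 : ((ks : ℝ) + 1) / RR m ≤ (kt : ℝ) / RR m := by
      apply div_le_div_of_nonneg_right _ hR.le
      have : ks + 1 ≤ kt := by omega
      exact_mod_cast this
    have h4 := lint_add (γ := fun r => UU.indicator g (line p i r)) hs2 hle1
    have h5 := lint_add (γ := fun r => UU.indicator g (line p i r)) (hs2.trans hle1) ht1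
    have hsum : ∑ l ∈ Finset.range n,
        (jump f m i true (ks + 1 + l) p + jump f m i false (ks + 1 + l) p) ≤ err f m i p := by
      unfold err
      have hinj : Function.Injective fun l : ℕ => ks + 1 + (l : ℤ) := by
        intro a b hab
        simpa using hab
      have := ENNReal.sum_le_tsum (f := fun k : ℤ => jump f m i true k p + jump f m i false k p)
        ((Finset.range n).map ⟨_, hinj⟩)
      rw [Finset.sum_map] at this
      exact this
    calc edist (f (line p i s)) (f (line p i t))
        ≤ edist (f (line p i s)) (f (line p i (((ks : ℝ) + 1) / RR m))) +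
          edist (f (line p i (((ks : ℝ) + 1) / RR m))) (f (line p i ((kt : ℝ) / RR m))) +
          edist (f (line p i ((kt : ℝ) / RR m))) (f (line p i t)) := edist_triangle4 _ _ _ _
      _ ≤ (∫⁻ r in Ioo s (((ks : ℝ) + 1) / RR m), UU.indicator g (line p i r)) +
          ((∫⁻ r in Ioo (((ks : ℝ) + 1) / RR m) ((kt : ℝ) / RR m),
            UU.indicator g (line p i r)) +
          ∑ l ∈ Finset.range n,
            (jump f m i true (ks + 1 + l) p + jump f m i false (ks + 1 + l) p)) +
          (∫⁻ r in Ioo ((kt : ℝ) / RR m) t, UU.indicator g (line p i r)) :=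
          add_le_add (add_le_add h1 h2) h3
      _ = ((∫⁻ r in Ioo s (((ks : ℝ) + 1) / RR m), UU.indicator g (line p i r)) +
          (∫⁻ r in Ioo (((ks : ℝ) + 1) / RR m) ((kt : ℝ) / RR m),
            UU.indicator g (line p i r))) +
          (∫⁻ r in Ioo ((kt : ℝ) / RR m) t, UU.indicator g (line p i r)) +
          ∑ l ∈ Finset.range n,
            (jump f m i true (ks + 1 + l) p + jump f m i false (ks + 1 + l) p) := by ring
      _ ≤ (∫⁻ r in Ioo s t, UU.indicator g (line p i r)) + err f m i p := by
          apply add_le_add _ hsum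
          exact (add_le_add h4 le_rfl).trans h5

end Pool.Agent.Helper83_CNED.H12
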